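import Pool.Agent.L7h55.MG.Unif

set_option autoImplicit false

/-!
# Embedding a matrix as an operator on `ℓ¹`
-/

open Set Filter Topology BoundedContinuousFunction
open H520R3.MG

namespace Pool.Agent.L7h55.MG

/-- coordinate functional -/
noncomputable def cf (j : ℕ) : E →L[ℝ] ℝ := pairL (ind {j})

theorem cf_apply (j : ℕ) (x : E) : cf j x = x j := by
  rw [cf, pairL_apply, tsum_eq_single j]
  · rw [ind_of_mem (mem_singleton j), mul_one]
  · intro k hk
    rw [ind_of_notMem (by simpa using hk), mul_zero]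

variable {d : ℕ}

/-- `A` on the first `d` coordinates, the identity on the others -/
noncomputable def L (A : Matrix (Fin d) (Fin d) ℝ) : E →L[ℝ] E :=
  ContinuousLinearMap.id ℝ E +
    ∑ i : Fin d, ∑ j : Fin d,
      (A i j - (1 : Matrix (Fin d) (Fin d) ℝ) i j) • ((cf (j : ℕ)).smulRight (e (i : ℕ)))

theorem L_apply (A : Matrix (Fin d) (Fin d) ℝ) (x : E) :
    L A x = x + ∑ i : Fin d, ∑ j : Fin d,
      ((A i j - (1 : Matrix (Fin d) (Fin d) ℝ) i j) * x (j : ℕ)) • e (i : ℕ) := by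
  rw [L, _root_.add_apply, _root_.sum_apply]
  congr 1
  refine Finset.sum_congr rfl fun i _ => ?_
  rw [_root_.sum_apply]
  refine Finset.sum_congr rfl fun j _ => ?_
  rw [_root_.smul_apply, ContinuousLinearMap.smulRight_apply, cf_apply, smul_smul]

theorem L_coord (A : Matrix (Fin d) (Fin d) ℝ) (x : E) (n : ℕ) :
    (L A x) n = x n + ∑ i : Fin d, ∑ j : Fin d,
      ((A i j - (1 : Matrix (Fin d) (Fin d) ℝ) i j) * x (j : ℕ)) * e (i : ℕ) n := by
  rw [← cf_apply n (L A x), L_apply, map_add, map_sum, cf_apply]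
  congr 1
  refine Finset.sum_congr rfl fun i _ => ?_
  rw [map_sum]
  refine Finset.sum_congr rfl fun j _ => ?_
  rw [map_smul, cf_apply, smul_eq_mul]

theorem L_fin (A : Matrix (Fin d) (Fin d) ℝ) (x : E) (k : Fin d) :
    (L A x) (k : ℕ) = ∑ j : Fin d, A k j * x (j : ℕ) := by
  rw [L_coord, Finset.sum_eq_single k]
  · simp only [e_self, mul_one, sub_mul, Finset.sum_sub_distrib, Matrix.one_apply, ite_mul,
      one_mul, zero_mul, Finset.sum_ite_eq, Finset.mem_univ, if_true]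
    ring
  · intro i _ hi
    refine Finset.sum_eq_zero fun j _ => ?_
    rw [e_ne (fun h => hi (Fin.ext h).symm), mul_zero]
  · intro h; exact absurd (Finset.mem_univ k) h

theorem L_out (A : Matrix (Fin d) (Fin d) ℝ) (x : E) {n : ℕ} (hn : d ≤ n) :
    (L A x) n = x n := by
  rw [L_coord, Finset.sum_eq_zero, add_zero]
  intro i _
  refine Finset.sum_eq_zero fun j _ => ?_
  rw [e_ne (fun h => by have := i.isLt; omega), mul_zero]

theorem ext_fin (x y : E) (h1 : ∀ k : Fin d, x (k : ℕ) = y (k : ℕ)) (h2 : ∀ n, d ≤ n → x n = y n) :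
    x = y := by
  apply lp.ext
  funext n
  by_cases hn : n < d
  · exact h1 ⟨n, hn⟩
  · exact h2 n (not_lt.1 hn)

theorem L_one : L (1 : Matrix (Fin d) (Fin d) ℝ) = ContinuousLinearMap.id ℝ E := by
  ext x : 1
  rw [L_apply]
  simp

theorem L_mul (A B : Matrix (Fin d) (Fin d) ℝ) : L (A * B) = (L A).comp (L B) := by
  ext x : 1
  rw [ContinuousLinearMap.comp_apply]
  refine ext_fin (d := d) _ _ (fun k => ?_) fun n hn => ?_
  · rw [L_fin, L_fin]
    simp only [L_fin, Matrix.mul_apply, Finset.sum_mul, Finset.mul_sum]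
    rw [Finset.sum_comm]
    refine Finset.sum_congr rfl fun i _ => Finset.sum_congr rfl fun j _ => ?_
    ring
  · rw [L_out _ _ hn, L_out _ _ hn, L_out _ _ hn]

theorem norm_split (x : E) : ‖x‖ = ∑ k : Fin d, |x (k : ℕ)| + ∑' n, |x (n + d)| := by
  rw [norm_eq, ← (summ x).sum_add_tsum_nat_add d, Finset.sum_range]

theorem norm_L (A : Matrix (Fin d) (Fin d) ℝ) (x : E) :
    ‖L A x‖ = ∑ k : Fin d, |∑ j : Fin d, A k j * x (j : ℕ)| + ∑' n, |x (n + d)| := by
  rw [norm_split (d := d)]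
  congr 1
  · exact Finset.sum_congr rfl fun k _ => by rw [L_fin]
  · exact tsum_congr fun n => by rw [L_out _ _ (Nat.le_add_left d n)]

theorem norm_L_e (A : Matrix (Fin d) (Fin d) ℝ) (i : Fin d) :
    ‖L A (e (i : ℕ))‖ = ∑ k : Fin d, |A k i| := by
  rw [norm_L]
  have h1 : ∑' n, |e (i : ℕ) (n + d)| = 0 := by
    rw [tsum_congr (fun n => ?_), tsum_zero]
    rw [e_ne (fun h => by have := i.isLt; omega), abs_zero]
  rw [h1, add_zero]
  refine Finset.sum_congr rfl fun k _ => ?_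
  congr 1
  rw [Finset.sum_eq_single i]
  · rw [e_self, mul_one]
  · intro j _ hj
    rw [e_ne (fun h => hj (Fin.ext h)), mul_zero]
  · intro h; exact absurd (Finset.mem_univ i) h

theorem norm_L_e_out (A : Matrix (Fin d) (Fin d) ℝ) {n : ℕ} (hn : d ≤ n) :
    ‖L A (e n)‖ = 1 := by
  have : L A (e n) = e n := by
    refine ext_fin (d := d) _ _ (fun k => ?_) fun m hm => L_out _ _ hm
    rw [L_fin, Finset.sum_eq_zero, e_ne (fun h => by have := k.isLt; omega)]
    intro j _
    rw [e_ne (fun h => by have := j.isLt; omega), mul_zero]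
  rw [this, norm_e]

theorem mk_L (A : Matrix (Fin d) (Fin d) ℝ) (h0 : ∀ i j, 0 ≤ A i j) (h1 : ∀ j, ∑ i, A i j = 1) :
    Mk (L A) := by
  refine ⟨fun x hx n => ?_, fun x hx => ?_⟩
  · by_cases hn : n < d
    · have := L_fin A x ⟨n, hn⟩
      have h2 : (L A x) n = ∑ j : Fin d, A ⟨n, hn⟩ j * x (j : ℕ) := this
      rw [h2]
      exact Finset.sum_nonneg fun j _ => mul_nonneg (h0 _ _) (hx _)
    · rw [L_out _ _ (not_lt.1 hn)]; exact hx n
  · rw [norm_L, norm_split (d := d) x]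
    congr 1
    have e1 : ∀ k : Fin d, |∑ j : Fin d, A k j * x (j : ℕ)| = ∑ j : Fin d, A k j * x (j : ℕ) :=
      fun k => abs_of_nonneg (Finset.sum_nonneg fun j _ => mul_nonneg (h0 _ _) (hx _))
    rw [Finset.sum_congr rfl fun k _ => e1 k, Finset.sum_comm]
    refine Finset.sum_congr rfl fun j _ => ?_
    rw [← Finset.sum_mul, h1, one_mul, abs_of_nonneg (hx _)]

theorem contr_of_le (A : Matrix (Fin d) (Fin d) ℝ) {M : ℝ} (hM : 1 ≤ M)
    (h : ∀ j : Fin d, ∑ i : Fin d, |A i j| ≤ M) (x : E) : ‖L A x‖ ≤ M * ‖x‖ := by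
  refine opNorm_le (fun n => ?_) x
  by_cases hn : n < d
  · have := norm_L_e A ⟨n, hn⟩
    have h2 : ‖L A (e n)‖ = ∑ k : Fin d, |A k ⟨n, hn⟩| := this
    rw [h2]
    exact h _
  · rw [norm_L_e_out _ (not_lt.1 hn)]; exact hM

end Pool.Agent.L7h55.MG
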