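import Pool.Agent.L7h55.MG.Embed

set_option autoImplicit false

/-!
# The decoupled Markov group conjecture
-/

open Set Filter Topology BoundedContinuousFunction
open H520R3.MG
open NormedSpace (exp)

namespace Pool.Agent.L7h55.MG

variable {d : ℕ}

theorem Bd_growth {T : NNReal → (E →L[ℝ] E)} (hT : MSG T) {l₀ : ℕ}
    (h : ∀ j, ∀ m, l₀ < m → (3 : ℝ) / 4 < (T (hl m) (e j)) j) (k : ℕ) :
    2 ^ k * ‖Bd T (l₀ + 1 + k)‖ ≤ 3 / 2 - (8 / 9) ^ k := by
  have hb := Bd_rec hT h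
  induction k with
  | zero =>
    have := hb 0
    norm_num at this ⊢
    linarith
  | succ k ih =>
    have h1 := Bd_double hT (l₀ + 1 + k)
    have h3 : 2 * ‖Bd T (l₀ + 1 + k + 1)‖ ≤
        ‖Bd T (l₀ + 1 + k)‖ + ‖Bd T (l₀ + 1 + k + 1)‖ * ‖Bd T (l₀ + 1 + k + 1)‖ := by
      have e1 : 2 * ‖Bd T (l₀ + 1 + k + 1)‖ = ‖(2 : ℝ) • Bd T (l₀ + 1 + k + 1)‖ := by
        rw [norm_smul]; norm_num
      rw [e1, h1]
      refine (norm_add_le _ _).trans ?_
      gcongr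
      exact ContinuousLinearMap.opNorm_comp_le _ _
    have h4 := norm_nonneg (Bd T (l₀ + 1 + k + 1))
    have h5 := hb (k + 1)
    rw [show l₀ + 1 + (k + 1) = l₀ + 1 + k + 1 by ring] at h5 ⊢
    set b := ‖Bd T (l₀ + 1 + k + 1)‖ with hb'
    have h6 : b * b ≤ (1 / 2 * (2 / 3) ^ (k + 1)) * (1 / 2 * (2 / 3) ^ (k + 1)) :=
      mul_le_mul h5 h5 h4 (by positivity)
    have h7 : (2 : ℝ) ^ k * ((1 / 2 * (2 / 3) ^ (k + 1)) * (1 / 2 * (2 / 3) ^ (k + 1))) =
        1 / 9 * (8 / 9) ^ k := by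
      have : ((8 : ℝ) / 9) ^ k = 2 ^ k * ((2 / 3) ^ k * (2 / 3) ^ k) := by
        rw [← mul_pow, ← mul_pow]; norm_num
      rw [this, pow_succ]
      ring
    have h8 : (2 : ℝ) ^ k * (b * b) ≤ 1 / 9 * (8 / 9) ^ k := by
      rw [← h7]
      exact mul_le_mul_of_nonneg_left h6 (by positivity)
    have h9 : (2 : ℝ) ^ k * (2 * b) ≤ 2 ^ k * (‖Bd T (l₀ + 1 + k)‖ + b * b) :=
      mul_le_mul_of_nonneg_left h3 (by positivity)
    rw [pow_succ, pow_succ (8 / 9 : ℝ)]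
    linarith

open scoped Matrix.Norms.Operator in
theorem exp_add_smul (Q : Matrix (Fin d) (Fin d) ℝ) (s t : ℝ) :
    exp ((s + t) • Q) = exp (s • Q) * exp (t • Q) := by
  rw [add_smul]
  exact Matrix.exp_add_of_commute _ _ (((Commute.refl Q).smul_left s).smul_right t)

set_option backward.isDefEq.respectTransparency false in
open scoped Matrix.Norms.Operator in
theorem cont_exp (Q : Matrix (Fin d) (Fin d) ℝ) : Continuous fun t : ℝ => exp (t • Q) := by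
  have : Continuous fun t : ℝ => t • Q := by fun_prop
  exact NormedSpace.exp_continuous.comp this

set_option backward.isDefEq.respectTransparency false in
open scoped Matrix.Norms.Operator in
theorem deriv_exp (Q : Matrix (Fin d) (Fin d) ℝ) :
    HasDerivAt (fun t : ℝ => exp (t • Q)) Q 0 := by
  have := hasDerivAt_exp_smul_const Q (0 : ℝ)
  simpa using this

theorem cont_exp_entry (Q : Matrix (Fin d) (Fin d) ℝ) (i j : Fin d) :
    Continuous fun t : ℝ => exp (t • Q) i j := by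
  have h := cont_exp Q
  exact h.matrix_elem i j

set_option backward.isDefEq.respectTransparency false in
open scoped Matrix.Norms.Operator in
theorem deriv_exp_entry (Q : Matrix (Fin d) (Fin d) ℝ) (i j : Fin d) :
    HasDerivAt (fun t : ℝ => exp (t • Q) i j) (Q i j) 0 := by
  have h := deriv_exp Q
  have h1 : HasDerivAt (fun t : ℝ => exp (t • Q) i) (Q i) 0 := (hasDerivAt_pi.1 h) i
  exact (hasDerivAt_pi.1 h1) j

theorem exp_zero' (Q : Matrix (Fin d) (Fin d) ℝ) : exp ((0 : ℝ) • Q) = 1 := by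
  rw [zero_smul, NormedSpace.exp_zero]

/-- the semigroup on `ℓ¹` attached to `Q` -/
noncomputable def Tq (Q : Matrix (Fin d) (Fin d) ℝ) (t : NNReal) : E →L[ℝ] E :=
  L (exp ((t : ℝ) • Q))

theorem Tq_msg (Q : Matrix (Fin d) (Fin d) ℝ)
    (h : ∀ t : ℝ, 0 ≤ t → (∀ i j : Fin d, 0 ≤ exp (t • Q) i j) ∧
      (∀ j : Fin d, ∑ i : Fin d, exp (t • Q) i j = 1)) : MSG (Tq Q) where
  zero := by
    rw [Tq, NNReal.coe_zero, exp_zero', L_one]
  add s t := by
    rw [Tq, NNReal.coe_add, exp_add_smul, L_mul]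
    rfl
  cont x := by
    have : ∀ t : NNReal, Tq Q t x = x + ∑ i : Fin d, ∑ j : Fin d,
      ((exp ((t : ℝ) • Q) i j - (1 : Matrix (Fin d) (Fin d) ℝ) i j) * x (j : ℕ)) • e (i : ℕ) :=
      fun t => L_apply _ _
    simp only [this]
    refine continuous_const.add (continuous_finsetSum _ fun i _ =>
      continuous_finsetSum _ fun j _ => ?_)
    have hc : Continuous fun t : NNReal => exp ((t : ℝ) • Q) i j :=
      (cont_exp_entry Q i j).comp NNReal.continuous_coe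
    exact ((hc.sub continuous_const).mul continuous_const).smul continuous_const
  mkv t := mk_L _ (h t t.coe_nonneg).1 (h t t.coe_nonneg).2
  bij := by
    have e1 : (Tq Q 1).comp (L (exp ((-1 : ℝ) • Q))) = ContinuousLinearMap.id ℝ E := by
      rw [Tq, ← L_mul, ← exp_add_smul, NNReal.coe_one, add_neg_cancel, exp_zero', L_one]
    have e2 : (L (exp ((-1 : ℝ) • Q))).comp (Tq Q 1) = ContinuousLinearMap.id ℝ E := by
      rw [Tq, ← L_mul, ← exp_add_smul, NNReal.coe_one, neg_add_cancel, exp_zero', L_one]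
    refine Function.bijective_iff_has_inverse.2 ⟨L (exp ((-1 : ℝ) • Q)), fun x => ?_, fun x => ?_⟩
    · have := congrArg (fun A : E →L[ℝ] E => A x) e2
      exact this
    · have := congrArg (fun A : E →L[ℝ] E => A x) e1
      exact this

theorem Tq_lower (Q : Matrix (Fin d) (Fin d) ℝ) {M : ℝ} (hM : 1 ≤ M)
    (hQ : ∀ j : Fin d, ∑ i : Fin d, |exp (-Q) i j| ≤ M)
    (h : ∀ t : ℝ, 0 ≤ t → (∀ i j : Fin d, 0 ≤ exp (t • Q) i j) ∧
      (∀ j : Fin d, ∑ i : Fin d, exp (t • Q) i j = 1)) (t : NNReal) (ht : t ≤ 2) (x : E) :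
    ‖x‖ ≤ M * M * ‖Tq Q t x‖ := by
  have hc := contr_of_le (exp (-Q)) hM hQ
  have hT := Tq_msg Q h
  have e2 : (L (exp (-Q))).comp (Tq Q 1) = ContinuousLinearMap.id ℝ E := by
    rw [Tq, ← L_mul, show -Q = (-1 : ℝ) • Q by rw [neg_smul, one_smul], ← exp_add_smul,
      NNReal.coe_one, neg_add_cancel, exp_zero', L_one]
  have e3 : ∀ y, L (exp (-Q)) (Tq Q 1 y) = y := fun y =>
    congrArg (fun A : E →L[ℝ] E => A y) e2
  have hcM : ∀ y : E, ‖y‖ ≤ M * ‖Tq Q 1 y‖ := fun y => by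
    have := hc (Tq Q 1 y)
    rwa [e3] at this
  have h1 : Tq Q 2 = (Tq Q 1).comp (Tq Q 1) := by rw [← hT.add]; norm_num
  have h2 : Tq Q 2 = (Tq Q (2 - t)).comp (Tq Q t) := by rw [← hT.add, tsub_add_cancel_of_le ht]
  have h3 : ‖Tq Q 2 x‖ ≤ ‖Tq Q t x‖ := by
    rw [h2]
    exact (hT.mkv (2 - t)).contr _
  have h4 : Tq Q 2 x = Tq Q 1 (Tq Q 1 x) := by rw [h1]; rfl
  calc ‖x‖ ≤ M * ‖Tq Q 1 x‖ := hcM x
    _ ≤ M * (M * ‖Tq Q 1 (Tq Q 1 x)‖) := mul_le_mul_of_nonneg_left (hcM _) (by linarith)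
    _ = M * M * ‖Tq Q 2 x‖ := by rw [h4]; ring
    _ ≤ M * M * ‖Tq Q t x‖ := mul_le_mul_of_nonneg_left h3 (by nlinarith)

theorem col_Bd (Q : Matrix (Fin d) (Fin d) ℝ) (m : ℕ) (j : Fin d) :
    ∑ i : Fin d, |exp (((hl m : NNReal) : ℝ) • Q) i j - (1 : Matrix (Fin d) (Fin d) ℝ) i j| =
      ‖Bd (Tq Q) m (e (j : ℕ))‖ := by
  have e1 : Bd (Tq Q) m (e (j : ℕ)) = e (j : ℕ) - L (exp (((hl m : NNReal) : ℝ) • Q)) (e (j : ℕ)) :=
    rfl
  rw [e1, norm_split (d := d)]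
  have h1 : ∑' n, |(e (j : ℕ) - L (exp (((hl m : NNReal) : ℝ) • Q)) (e (j : ℕ)) : E) (n + d)| = 0 := by
    rw [tsum_congr (fun n => ?_), tsum_zero]
    rw [lp.coeFn_sub, Pi.sub_apply, L_out _ _ (Nat.le_add_left d n), sub_self, abs_zero]
  rw [h1, add_zero]
  refine Finset.sum_congr rfl fun k _ => ?_
  rw [lp.coeFn_sub, Pi.sub_apply, L_fin, Finset.sum_eq_single j]
  · rw [e_self, mul_one, abs_sub_comm]
    congr 2
    by_cases hk : k = j
    · subst hk; rw [e_self, Matrix.one_apply_eq]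
    · rw [e_ne (fun h => hk (Fin.ext h)), Matrix.one_apply_ne hk]
  · intro i _ hi
    rw [e_ne (fun h => hi (Fin.ext h)), mul_zero]
  · intro h; exact absurd (Finset.mem_univ j) h

theorem main : ∀ M : ℝ, 1 ≤ M → ∃ C : ℝ, 0 ≤ C ∧
      ∀ d : ℕ, ∀ Q : Matrix (Fin d) (Fin d) ℝ,
        (∀ j : Fin d, ∑ i : Fin d, |exp (-Q) i j| ≤ M) →
        (∀ t : ℝ, 0 ≤ t →
          (∀ i j : Fin d, 0 ≤ exp (t • Q) i j) ∧
          (∀ j : Fin d, ∑ i : Fin d, exp (t • Q) i j = 1)) →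
        ∀ j : Fin d, ∑ i : Fin d, |Q i j| ≤ C := by
  intro M hM
  obtain ⟨l₀, hl₀⟩ := levels_unif (M * M) (by nlinarith)
  refine ⟨2 ^ (l₀ + 1) * (3 / 2), by positivity, ?_⟩
  intro d Q hQ h j
  have hT := Tq_msg Q h
  have hlev := hl₀ (Tq Q) hT (fun t ht x => Tq_lower Q hM hQ h t ht x)
  have hgr := Bd_growth hT hlev
  have hlim0 : Tendsto (fun k : ℕ => ((hl (l₀ + 1 + k) : NNReal) : ℝ)) atTop (𝓝[≠] 0) := by
    refine tendsto_nhdsWithin_iff.2 ⟨?_, Eventually.of_forall fun k => ?_⟩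
    · simp only [hl_real]
      have h1 : Tendsto (fun k : ℕ => ((1 : ℝ) / 2) ^ k) atTop (𝓝 0) :=
        tendsto_pow_atTop_nhds_zero_of_lt_one (by norm_num) (by norm_num)
      have h2 : Tendsto (fun k : ℕ => l₀ + 1 + k) atTop atTop :=
        tendsto_atTop_mono (fun k => Nat.le_add_left k _) tendsto_id
      exact h1.comp h2
    · have := hl_pos (l₀ + 1 + k)
      exact ne_of_gt (by exact_mod_cast this)
  have hent : ∀ i : Fin d, Tendsto (fun k : ℕ =>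
      (2 : ℝ) ^ (l₀ + 1 + k) * |exp (((hl (l₀ + 1 + k) : NNReal) : ℝ) • Q) i j -
        (1 : Matrix (Fin d) (Fin d) ℝ) i j|) atTop (𝓝 |Q i j|) := by
    intro i
    have h1 := (hasDerivAt_iff_tendsto_slope.1 (deriv_exp_entry Q i j)).comp hlim0
    have h2 := h1.abs
    refine h2.congr fun k => ?_
    simp only [Function.comp_apply, slope_def_field, sub_zero]
    rw [exp_zero', abs_div, hl_real]
    have h3 : (0 : ℝ) < (1 / 2) ^ (l₀ + 1 + k) := by positivity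
    rw [abs_of_pos h3]
    have h4 : ((1 : ℝ) / 2) ^ (l₀ + 1 + k) = (2 ^ (l₀ + 1 + k))⁻¹ := by
      rw [one_div, inv_pow]
    rw [h4, div_inv_eq_mul, mul_comm]
  have hsum := tendsto_finsetSum (Finset.univ : Finset (Fin d)) fun i _ => hent i
  refine le_of_tendsto hsum (Eventually.of_forall fun k => ?_)
  rw [← Finset.mul_sum, col_Bd]
  have h5 := (Bd (Tq Q) (l₀ + 1 + k)).le_opNorm (e (j : ℕ))
  rw [norm_e, mul_one] at h5
  have h6 := hgr k
  have h7 : (0 : ℝ) < (8 / 9) ^ k := by positivity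
  calc (2 : ℝ) ^ (l₀ + 1 + k) * ‖Bd (Tq Q) (l₀ + 1 + k) (e (j : ℕ))‖
      ≤ 2 ^ (l₀ + 1 + k) * ‖Bd (Tq Q) (l₀ + 1 + k)‖ :=
        mul_le_mul_of_nonneg_left h5 (by positivity)
    _ = 2 ^ (l₀ + 1) * (2 ^ k * ‖Bd (Tq Q) (l₀ + 1 + k)‖) := by rw [pow_add]; ring
    _ ≤ 2 ^ (l₀ + 1) * (3 / 2) := mul_le_mul_of_nonneg_left (by linarith) (by positivity)

end Pool.Agent.L7h55.MG
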